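import Pool.Agent.N534.TP.Fam

/-!
# The complete linear systems of plane curves
-/

set_option autoImplicit false

namespace Pool.Agent.N534.TP

open Finset Pool.Agent.Y722.HS Pool.Agent.Y722.LS Pool.Agent.Y722.PC

/-- The monomials of degree `d` in three variables. -/
noncomputable def monos (d : ℕ) (ν : Mon 2 d) : MvPolynomial (Fin 3) ℤ :=
  ∏ i, MvPolynomial.X i ^ (ν.1 i : ℕ)

lemma aeval_monos {d : ℕ} {R : Type*} [CommRing R] (ν : Mon 2 d) (x : Fin 3 → R) :
    MvPolynomial.aeval x (monos d ν) = mev x ν := by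
  unfold monos mev
  rw [map_prod]
  refine Finset.prod_congr rfl fun i _ => ?_
  rw [map_pow, MvPolynomial.aeval_X]

lemma lval_monos {d : ℕ} {R : Type*} [CommRing R] (c : Mon 2 d → R) (x : Fin 3 → R) :
    lval (n := 2) (monos d) c x = Pool.Agent.Y722.HS.val c x := by
  unfold lval Pool.Agent.Y722.HS.val
  exact Finset.sum_congr rfl fun ν _ => by rw [aeval_monos]

lemma lform_monos {d : ℕ} {R : Type*} [CommRing R] (c : Mon 2 d → R) :
    lform (n := 2) (monos d) c = form c := by
  unfold lform form monos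
  refine Finset.sum_congr rfl fun ν _ => ?_
  rw [map_prod]
  simp

lemma homog_monos {d : ℕ} (ν : Mon 2 d) : (monos d ν).IsHomogeneous d := by
  unfold monos
  have h1 := MvPolynomial.IsHomogeneous.prod Finset.univ
    (fun i : Fin 3 => (MvPolynomial.X i : MvPolynomial (Fin 3) ℤ) ^ (ν.1 i : ℕ))
    (fun i => (ν.1 i : ℕ)) (fun i _ => by
      have := (MvPolynomial.isHomogeneous_X ℤ i).pow (ν.1 i : ℕ)
      rwa [one_mul] at this)
  rwa [ν.2] at h1

/-- Every form is a linear combination of the monomials. -/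
lemma exists_val {d : ℕ} {R : Type*} [CommRing R] (G : MvPolynomial (Fin 3) R) (hG : G.IsHomogeneous d) :
    ∃ c : Mon 2 d → R, ∀ x : Fin 3 → R, Pool.Agent.Y722.HS.val c x = MvPolynomial.eval x G := by
  classical
  set e : Mon 2 d → (Fin 3 →₀ ℕ) := fun ν => Finsupp.equivFunOnFinite.symm (fun i => (ν.1 i : ℕ)) with he
  have hinj : Function.Injective e := by
    intro a b hab
    apply Subtype.ext
    funext i
    have := DFunLike.congr_fun hab i
    simp only [he, Finsupp.equivFunOnFinite_symm_apply_apply] at this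
    exact Fin.ext this
  refine ⟨fun ν => G.coeff (e ν), fun x => ?_⟩
  rw [MvPolynomial.eval_eq']
  have h1 : G.support ⊆ Finset.univ.image e := by
    intro s hs
    have hd : ∑ i, s i = d := by
      have h2 := hG (MvPolynomial.mem_support_iff.mp hs)
      rw [Finsupp.weight_apply, Finsupp.sum_fintype _ _ (by simp)] at h2
      simpa using h2
    rw [Finset.mem_image]
    refine ⟨mkMon (fun i => s i) hd, Finset.mem_univ _, ?_⟩
    ext i
    rfl
  rw [Finset.sum_subset h1 (fun s _ hs => by
    rw [MvPolynomial.notMem_support_iff] at hs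
    rw [hs, zero_mul]), Finset.sum_image fun a _ b _ h => hinj h]
  unfold Pool.Agent.Y722.HS.val mev
  rfl

lemma separates4_monos {d : ℕ} (hd : 3 ≤ d) (p : ℕ) (hp : p.Prime) : Separates4 (n := 2) (monos d) p := by
  have := Fact.mk hp
  intro x y hx hy
  have hx0 : x ≠ 0 := by
    rintro rfl
    obtain ⟨i, j, h⟩ := hy 0
    simp at h
  obtain ⟨k, hk⟩ : ∃ i, x i ≠ 0 := Function.ne_iff.mp hx0
  choose i j hij using hy
  set G : MvPolynomial (Fin 3) (ZMod p) := (∏ s : Fin 3, (MvPolynomial.C (y s (j s)) *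
    MvPolynomial.X (i s) - MvPolynomial.C (y s (i s)) * MvPolynomial.X (j s))) *
      MvPolynomial.X k ^ (d - 3) with hG
  have hl : ∀ s : Fin 3, (MvPolynomial.C (y s (j s)) * MvPolynomial.X (i s) -
      MvPolynomial.C (y s (i s)) * MvPolynomial.X (j s) : MvPolynomial (Fin 3) (ZMod p)).IsHomogeneous 1 := by
    intro s
    apply MvPolynomial.IsHomogeneous.sub
    · have := (MvPolynomial.isHomogeneous_C (Fin 3) (y s (j s))).mul
        (MvPolynomial.isHomogeneous_X (ZMod p) (i s))
      rwa [zero_add] at this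
    · have := (MvPolynomial.isHomogeneous_C (Fin 3) (y s (i s))).mul
        (MvPolynomial.isHomogeneous_X (ZMod p) (j s))
      rwa [zero_add] at this
  have hGh : G.IsHomogeneous d := by
    have h1 := (MvPolynomial.IsHomogeneous.prod Finset.univ _ (fun _ => 1) (fun s _ => hl s)).mul
      ((MvPolynomial.isHomogeneous_X (ZMod p) k).pow (d - 3))
    have h2 : ∑ _s : Fin 3, 1 + 1 * (d - 3) = d := by
      simp
      omega
    rwa [h2] at h1
  obtain ⟨c, hc⟩ := exists_val G hGh
  refine ⟨c, ?_, ?_⟩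
  · rw [eval_lform, lval_monos, hc, hG]
    simp only [map_mul, map_prod, map_sub, MvPolynomial.eval_C, MvPolynomial.eval_X, map_pow]
    refine mul_ne_zero (Finset.prod_ne_zero_iff.mpr fun s _ => ?_) (pow_ne_zero _ hk)
    rw [sub_ne_zero, mul_comm (y s (j s)), mul_comm (y s (i s))]
    exact hij s
  · intro s
    rw [eval_lform, lval_monos, hc, hG]
    simp only [map_mul, map_prod, map_sub, MvPolynomial.eval_C, MvPolynomial.eval_X, map_pow]
    rw [Finset.prod_eq_zero (Finset.mem_univ s), zero_mul]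
    ring

lemma exists_pow' {d : ℕ} (k : Fin 3) : ∃ ν : Mon 2 d, ∀ i, (ν.1 i : ℕ) = if i = k then d else 0 :=
  ⟨mkMon (fun i => if i = k then d else 0) (by simp), fun i => rfl⟩

lemma bcone_monos {d : ℕ} (p : ℕ) (hp : p.Prime) : bcone (n := 2) (monos d) p = 0 := by
  have := Fact.mk hp
  unfold bcone
  rw [Nat.card_eq_zero]
  left
  refine ⟨fun x => ?_⟩
  obtain ⟨k, hk⟩ : ∃ i, x.1 i ≠ 0 := Function.ne_iff.mp x.2.1
  obtain ⟨ν, hν⟩ := exists_pow' (d := d) k
  have h1 := x.2.2 ν
  rw [aeval_monos] at h1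
  unfold mev at h1
  rw [Finset.prod_eq_single k] at h1
  · rw [hν k, if_pos rfl] at h1
    exact pow_ne_zero _ hk h1
  · intro i _ hi
    rw [hν i, if_neg hi, pow_zero]
  · intro h
    exact absurd (Finset.mem_univ _) h

/-- The complete linear system has a smooth member (Fermat). -/
lemma smooth_monos {d : ℕ} (hd : 1 ≤ d) : ∃ c₀ : Mon 2 d → ℤ,
    IsSmooth (lform (n := 2) (monos d) (fun i => (c₀ i : ℂ))) := by
  classical
  choose ν hν using fun k => exists_pow' (d := d) k
  have hinj : Function.Injective ν := by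
    intro a b hab
    by_contra hne
    have h1 := hν a a
    have h2 := hν b a
    rw [hab, if_pos rfl] at h1
    rw [if_neg hne] at h2
    omega
  refine ⟨fun μ => if μ ∈ Finset.univ.image ν then 1 else 0, ?_⟩
  have hF : lform (n := 2) (monos d)
      (fun i => (((if i ∈ Finset.univ.image ν then 1 else 0 : ℤ)) : ℂ)) =
      ∑ k : Fin 3, (MvPolynomial.X k : MvPolynomial (Fin 3) ℂ) ^ d := by
    rw [lform_monos]
    unfold form
    have h1 : ∀ k : Fin 3, (∏ i, (MvPolynomial.X i : MvPolynomial (Fin 3) ℂ) ^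
        ((ν k).1 i : ℕ)) = MvPolynomial.X k ^ d := by
      intro k
      rw [Finset.prod_eq_single k]
      · rw [hν k k, if_pos rfl]
      · intro i _ hi
        rw [hν k i, if_neg hi, pow_zero]
      · intro h
        exact absurd (Finset.mem_univ _) h
    rw [← Finset.sum_subset (Finset.subset_univ (Finset.univ.image ν))]
    · rw [Finset.sum_image fun a _ b _ h => hinj h]
      refine Finset.sum_congr rfl fun k _ => ?_
      rw [h1]
      beta_reduce
      rw [if_pos (Finset.mem_image_of_mem ν (Finset.mem_univ k))]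
      simp
    · intro μ _ hμ
      beta_reduce
      rw [if_neg hμ]
      simp
  intro x hx _
  obtain ⟨k, hk⟩ : ∃ i, x i ≠ 0 := Function.ne_iff.mp hx
  refine ⟨k, ?_⟩
  rw [hF, map_sum, map_sum, Finset.sum_eq_single k]
  · rw [MvPolynomial.pderiv_pow, MvPolynomial.pderiv_X_self]
    simp only [map_mul, map_natCast, map_pow, MvPolynomial.eval_X, mul_one]
    have hd0 : ((d : ℕ) : ℂ) ≠ 0 := by exact_mod_cast (by omega : d ≠ 0)
    exact mul_ne_zero hd0 (pow_ne_zero _ hk)
  · intro i _ hi
    rw [MvPolynomial.pderiv_pow, MvPolynomial.pderiv_X_of_ne hi]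
    simp
  · intro h
    exact absurd (Finset.mem_univ _) h

end Pool.Agent.N534.TP
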