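import Pool.Agent.N534.TP.Line
import Pool.Agent.Y722.PC.Products

/-!
# Tensor products of plane curves: moments of the traces of Frobenius
-/

set_option autoImplicit false

namespace Pool.Agent.N534.TP

open Finset Pool.Agent.Y722.HS Pool.Agent.Y722.LS Pool.Agent.Y722.PC Pool.Agent.N534.TL

section prod

theorem prod_bd {k : ℕ} (s : Finset (Fin k)) (a δ : Fin k → ℝ) (x E : ℝ) (hE : 0 ≤ E) (hx : 0 ≤ x)
    (hxE : x ≤ E) (hδ : ∀ i, |δ i| ≤ 1) (ha : ∀ i, |a i - δ i| ≤ x) :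
    |∏ i ∈ s, a i| ≤ (1 + E) ^ s.card ∧
      |∏ i ∈ s, a i - ∏ i ∈ s, δ i| ≤ s.card * x * (1 + E) ^ s.card := by
  classical
  induction s using Finset.induction_on with
  | empty => simp
  | insert i s hi ih =>
    obtain ⟨h1, h2⟩ := ih
    rw [Finset.prod_insert hi, Finset.prod_insert hi, Finset.card_insert_of_notMem hi]
    have hai : |a i| ≤ 1 + E := by
      have h3 : a i = (a i - δ i) + δ i := by ring
      have h4 := abs_add_le (a i - δ i) (δ i)
      rw [← h3] at h4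
      have := ha i
      have := hδ i
      linarith
    have hδp : |∏ i ∈ s, δ i| ≤ 1 := by
      rw [Finset.abs_prod]
      exact Finset.prod_le_one (fun _ _ => abs_nonneg _) (fun i _ => hδ i)
    have hE1 : (1 : ℝ) ≤ 1 + E := by linarith
    have hp1 : (0 : ℝ) < (1 + E) ^ s.card := by positivity
    constructor
    · rw [abs_mul, pow_succ, mul_comm ((1 + E) ^ s.card)]
      exact mul_le_mul hai h1 (abs_nonneg _) (by positivity)
    · have e : a i * ∏ i ∈ s, a i - δ i * ∏ i ∈ s, δ i =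
          (a i - δ i) * ∏ i ∈ s, a i + δ i * (∏ i ∈ s, a i - ∏ i ∈ s, δ i) := by ring
      rw [e]
      have h5 := abs_add_le ((a i - δ i) * ∏ i ∈ s, a i) (δ i * (∏ i ∈ s, a i - ∏ i ∈ s, δ i))
      rw [abs_mul, abs_mul] at h5
      have h6 : |a i - δ i| * |∏ i ∈ s, a i| ≤ x * (1 + E) ^ s.card :=
        mul_le_mul (ha i) h1 (abs_nonneg _) hx
      have h7 : |δ i| * |∏ i ∈ s, a i - ∏ i ∈ s, δ i| ≤ 1 * (s.card * x * (1 + E) ^ s.card) :=
        mul_le_mul (hδ i) h2 (abs_nonneg _) (by norm_num)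
      have h8 : (1 + E) ^ s.card ≤ (1 + E) ^ (s.card + 1) := pow_le_pow_right₀ hE1 (by omega)
      have h9 : (0 : ℝ) ≤ (s.card : ℝ) * x := by positivity
      push_cast
      calc _ ≤ x * (1 + E) ^ s.card + 1 * (s.card * x * (1 + E) ^ s.card) := by linarith
        _ = ((s.card : ℝ) + 1) * x * (1 + E) ^ s.card := by ring
        _ ≤ _ := by gcongr

end prod

section one
variable {ι : Type} [Fintype ι] [DecidableEq ι] {p : ℕ} [Fact p.Prime]
  {f : ι → MvPolynomial (Fin 3) ℤ} {d : ℕ} {C0 : ℝ}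

/-- The means of the powers of the trace. -/
noncomputable def em (f : ι → MvPolynomial (Fin 3) ℤ) (p m : ℕ) : ℝ :=
  if m = 0 then 1 else if m = 1 then -mu f p else
    ((p : ℝ) ^ 3 - 1 - bcone (n := 2) f p) / (p : ℝ) ^ 2 + mu f p ^ 2

theorem EM_pow (hf : ∀ i, (f i).IsHomogeneous d) (hs : Separates4 (n := 2) f p) (m : ℕ) (hm : m ≤ 2) :
    EM p (fun c : ι → ZMod p => tr f p c ^ m) = em f p m := by
  unfold em
  interval_cases m
  · simp only [pow_zero, if_true]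
    exact EM_const p 1
  · simp only [pow_one, one_ne_zero, if_false, if_true]
    have : (fun c : ι → ZMod p => tr f p c) = fun c => (-1) * tt f p c := by
      funext c; rw [tr_eq]; ring
    rw [this, Pool.Agent.Y722.LS.EM_mul, EM_tt]
    ring
  · simp only [OfNat.ofNat_ne_zero, if_false, OfNat.ofNat_ne_one]
    have : (fun c : ι → ZMod p => tr f p c ^ 2) = fun c => tt f p c ^ 2 := by
      funext c; rw [tr_eq]; ring
    rw [this, EM_tt_sq hf hs]

theorem em_near (hC0 : 0 ≤ C0) (hZ : (bcone (n := 2) f p : ℝ) ≤ C0 * p) (m : ℕ) (hm : m ≤ 2) :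
    |em f p m / (p : ℝ) ^ ((m : ℝ) / 2) - (if m ≠ 1 then 1 else 0)| ≤
      2 * (1 + C0) ^ 2 / (p : ℝ) ^ ((1 : ℝ) / 2) := by
  have hp0 : (0 : ℝ) < p := by exact_mod_cast (Fact.out : p.Prime).pos
  have hp1 : (1 : ℝ) ≤ p := by exact_mod_cast (Fact.out : p.Prime).one_lt.le
  obtain ⟨m0, m1⟩ := mu_bd (f := f) (p := p) hC0 hZ
  have hq : (0 : ℝ) < (p : ℝ) ^ ((1 : ℝ) / 2) := by positivity
  have hC2 : 1 + C0 ≤ 2 * (1 + C0) ^ 2 := by nlinarith
  unfold em
  interval_cases m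
  · simp
    positivity
  · simp only [one_ne_zero, if_false, if_true, ne_eq, not_true_eq_false, sub_zero]
    rw [abs_div, abs_neg, abs_of_nonneg m0, Nat.cast_one, abs_of_pos hq]
    gcongr
    linarith
  · simp only [OfNat.ofNat_ne_zero, if_false, OfNat.ofNat_ne_one, ne_eq, not_false_eq_true, if_true]
    have e0 : ((2 : ℕ) : ℝ) / 2 = 1 := by norm_num
    rw [e0, Real.rpow_one]
    set B : ℝ := ((bcone (n := 2) f p : ℕ) : ℝ) with hB
    have hB0 : 0 ≤ B := by rw [hB]; positivity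
    have e1 : (((p : ℝ) ^ 3 - 1 - B) / (p : ℝ) ^ 2 + mu f p ^ 2) / p - 1 =
        (mu f p ^ 2 - (1 + B) / (p : ℝ) ^ 2) / p := by
      field_simp
      ring
    rw [e1, abs_div, abs_of_pos hp0]
    have h5 : mu f p ^ 2 ≤ (1 + C0) ^ 2 := by gcongr
    have h6 : 0 ≤ mu f p ^ 2 := sq_nonneg _
    have h3 : (1 + B) / (p : ℝ) ^ 2 ≤ 1 + C0 := by
      rw [div_le_iff₀ (by positivity)]
      have : (p : ℝ) ≤ (p : ℝ) ^ 2 := by nlinarith
      nlinarith
    have h4 : 0 ≤ (1 + B) / (p : ℝ) ^ 2 := by positivity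
    have h7 : |mu f p ^ 2 - (1 + B) / (p : ℝ) ^ 2| ≤ 2 * (1 + C0) ^ 2 := by
      rw [abs_le]
      constructor <;> nlinarith
    have h8 : (p : ℝ) ^ ((1 : ℝ) / 2) ≤ p := by
      calc (p : ℝ) ^ ((1 : ℝ) / 2) ≤ (p : ℝ) ^ (1 : ℝ) :=
            Real.rpow_le_rpow_of_exponent_le hp1 (by norm_num)
        _ = p := Real.rpow_one _
    gcongr

theorem EM_even (hf : ∀ i, (f i).IsHomogeneous d) (hs : Separates4 (n := 2) f p) (hC0 : 0 ≤ C0)
    (hZ : (bcone (n := 2) f p : ℝ) ≤ C0 * p) (m : ℕ) (hm : m ≤ 2) :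
    EM p (fun c : ι → ZMod p => (tr f p c ^ m) ^ 2) ≤ (49 + 8 * (1 + C0) ^ 4) * (p : ℝ) ^ m := by
  have hp0 : (0 : ℝ) < p := by exact_mod_cast (Fact.out : p.Prime).pos
  have hp1 : (1 : ℝ) ≤ p := by exact_mod_cast (Fact.out : p.Prime).one_lt.le
  obtain ⟨m0, m1⟩ := mu_bd (f := f) (p := p) hC0 hZ
  have hC4 : (0 : ℝ) ≤ (1 + C0) ^ 4 := by positivity
  interval_cases m
  · simp only [pow_zero, one_pow, mul_one]
    rw [EM_const p 1]
    linarith
  · have : (fun c : ι → ZMod p => (tr f p c ^ 1) ^ 2) = fun c => tt f p c ^ 2 := by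
      funext c; rw [tr_eq]; ring
    rw [this, EM_tt_sq hf hs, pow_one]
    have hB0 : (0 : ℝ) ≤ bcone (n := 2) f p := by positivity
    have h1 : ((p : ℝ) ^ 3 - 1 - bcone (n := 2) f p) / (p : ℝ) ^ 2 ≤ p := by
      rw [div_le_iff₀ (by positivity)]
      have : (p : ℝ) * p ^ 2 = p ^ 3 := by ring
      linarith
    have h2 : mu f p ^ 2 ≤ (1 + C0) ^ 2 := by gcongr
    have h3 : (1 + C0) ^ 2 ≤ (1 + C0) ^ 4 := pow_le_pow_right₀ (by linarith) (by norm_num)
    nlinarith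
  · have : (fun c : ι → ZMod p => (tr f p c ^ 2) ^ 2) = fun c => tt f p c ^ 4 := by
      funext c; rw [tr_eq]; ring
    rw [this]
    refine (EM_tt_four hf hs hC0 hZ).trans ?_
    gcongr
    linarith

end one

section many
variable {k : ℕ} {ι : Fin k → Type} [∀ i, Fintype (ι i)] [∀ i, DecidableEq (ι i)]
variable {J : Type} [Fintype J]

/-- The trace of the geometric Frobenius at `p` on the sum over `j` of the motives
`⊗_i h¹(C_i) ^ {⊗ m j i} (- t j)`, for the plane curves `C_i : ∑ c ⟨i, a⟩ f i a = 0` modulo `p`. -/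
noncomputable def TT (f : ∀ i, ι i → MvPolynomial (Fin 3) ℤ) (m : J → Fin k → ℕ) (t : J → ℕ) (p : ℕ)
    (c : (Σ i, ι i) → ZMod p) : ℝ :=
  ∑ j, (p : ℝ) ^ (t j) * ∏ i, tr (f i) p (fun a => c ⟨i, a⟩) ^ (m j i)

/-- Its mean. -/
noncomputable def ET (f : ∀ i, ι i → MvPolynomial (Fin 3) ℤ) (m : J → Fin k → ℕ) (t : J → ℕ) (p : ℕ) :
    ℝ := ∑ j, (p : ℝ) ^ (t j) * ∏ i, em (f i) p (m j i)

/-- The normalising factor. -/
noncomputable def PP (w p : ℕ) : ℝ := (p : ℝ) ^ ((((w + 1 : ℕ) : ℝ) + 1) / 2)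

theorem PP_pos {w p : ℕ} (hp : 0 < p) : 0 < PP w p := by
  have : (0 : ℝ) < p := by exact_mod_cast hp
  unfold PP
  positivity

theorem PP_sq {w p : ℕ} (hp : 0 < p) : PP w p ^ 2 = (p : ℝ) ^ (w + 2) := by
  have h0 : (0 : ℝ) < p := by exact_mod_cast hp
  unfold PP
  rw [← Real.rpow_natCast, ← Real.rpow_mul h0.le, ← Real.rpow_natCast]
  congr 1
  push_cast
  ring

/-- The normalised trace without its mean. -/
noncomputable def NT (f : ∀ i, ι i → MvPolynomial (Fin 3) ℤ) (m : J → Fin k → ℕ) (t : J → ℕ)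
    (w p0 p : ℕ) (c : (Σ i, ι i) → ZMod p) : ℝ :=
  if p < p0 then 0 else (1 / PP w p) * (TT f m t p c - ET f m t p)

/-- The number of the summands in which no curve occurs exactly once. -/
noncomputable def kap (m : J → Fin k → ℕ) : ℝ := ∑ j, if ∀ i, m j i ≠ 1 then (1 : ℝ) else 0

/-- The normalised mean. -/
noncomputable def RT (f : ∀ i, ι i → MvPolynomial (Fin 3) ℤ) (m : J → Fin k → ℕ) (t : J → ℕ)
    (w p0 p : ℕ) : ℝ :=
  if p < p0 then kap m / p else ET f m t p / PP w p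

variable {f : ∀ i, ι i → MvPolynomial (Fin 3) ℤ} {d : Fin k → ℕ} {C0 : ℝ} {m : J → Fin k → ℕ}
  {t : J → ℕ} {w p0 : ℕ}

theorem EM_sub' (p : ℕ) [NeZero p] {κ : Type} [Fintype κ] [DecidableEq κ] (g : (κ → ZMod p) → ℝ)
    (e : ℝ) : EM p (fun c => g c - e) = EM p g - e := by
  have h : (fun c => g c - e) = fun c => g c + (-e) := by funext c; ring
  rw [h, EM_add, EM_const]
  ring

theorem EM_TT (hf : ∀ i j, (f i j).IsHomogeneous (d i)) (p : ℕ) [Fact p.Prime]
    (hs : ∀ i, Separates4 (n := 2) (f i) p) (hm : ∀ j i, m j i ≤ 2) :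
    EM p (fun c : (Σ i, ι i) → ZMod p => TT f m t p c) = ET f m t p := by
  unfold TT ET
  rw [EM_sum]
  refine Finset.sum_congr rfl fun j _ => ?_
  rw [Pool.Agent.Y722.LS.EM_mul]
  congr 1
  rw [EM_prod p (fun i x => tr (f i) p x ^ m j i)]
  exact Finset.prod_congr rfl fun i _ => EM_pow (hf i) (hs i) (m j i) (hm j i)

theorem EM_TT_sq (hC0 : 0 ≤ C0) (hf : ∀ i j, (f i j).IsHomogeneous (d i)) (p : ℕ) [Fact p.Prime]
    (hs : ∀ i, Separates4 (n := 2) (f i) p) (hZ : ∀ i, (bcone (n := 2) (f i) p : ℝ) ≤ C0 * p)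
    (hm : ∀ j i, m j i ≤ 2) (hw : ∀ j, ∑ i, m j i + 2 * t j = w) :
    EM p (fun c : (Σ i, ι i) → ZMod p => TT f m t p c ^ 2) ≤
      Fintype.card J * (Fintype.card J * (49 + 8 * (1 + C0) ^ 4) ^ k) * (p : ℝ) ^ w := by
  classical
  have hp0 : (0 : ℝ) < p := by exact_mod_cast (Fact.out : p.Prime).pos
  set D : ℝ := 49 + 8 * (1 + C0) ^ 4 with hD
  have hD0 : 0 ≤ D := by positivity
  have h1 : EM p (fun c : (Σ i, ι i) → ZMod p => TT f m t p c ^ 2) ≤
      EM p (fun c : (Σ i, ι i) → ZMod p => (Fintype.card J : ℝ) *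
        ∑ j, ((p : ℝ) ^ (t j) * ∏ i, tr (f i) p (fun a => c ⟨i, a⟩) ^ (m j i)) ^ 2) := by
    apply EM_mono
    intro c
    have := sq_sum_le_card_mul_sum_sq (s := (Finset.univ : Finset J))
      (f := fun j => (p : ℝ) ^ (t j) * ∏ i, tr (f i) p (fun a => c ⟨i, a⟩) ^ (m j i))
    rwa [Finset.card_univ] at this
  refine h1.trans ?_
  rw [Pool.Agent.Y722.LS.EM_mul, EM_sum]
  have h2 : ∀ j ∈ (Finset.univ : Finset J), EM p (fun c : (Σ i, ι i) → ZMod p =>
      ((p : ℝ) ^ (t j) * ∏ i, tr (f i) p (fun a => c ⟨i, a⟩) ^ (m j i)) ^ 2) ≤ D ^ k * (p : ℝ) ^ w := by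
    intro j _
    have e1 : (fun c : (Σ i, ι i) → ZMod p =>
        ((p : ℝ) ^ (t j) * ∏ i, tr (f i) p (fun a => c ⟨i, a⟩) ^ (m j i)) ^ 2) =
        fun c => ((p : ℝ) ^ (t j)) ^ 2 *
          ∏ i, (tr (f i) p (fun a => c ⟨i, a⟩) ^ (m j i)) ^ 2 := by
      funext c
      rw [mul_pow, ← Finset.prod_pow]
    rw [e1, Pool.Agent.Y722.LS.EM_mul, EM_prod p (fun i x => (tr (f i) p x ^ m j i) ^ 2)]
    have h3 : ∏ i, EM p (fun x : ι i → ZMod p => (tr (f i) p x ^ (m j i)) ^ 2) ≤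
        ∏ i : Fin k, D * (p : ℝ) ^ (m j i) := by
      apply Finset.prod_le_prod
      · intro i _
        unfold EM
        positivity
      · intro i _
        exact EM_even (hf i) (hs i) hC0 (hZ i) (m j i) (hm j i)
    rw [Finset.prod_mul_distrib, Finset.prod_const, Finset.card_univ, Fintype.card_fin,
      Finset.prod_pow_eq_pow_sum] at h3
    calc _ ≤ ((p : ℝ) ^ (t j)) ^ 2 * (D ^ k * (p : ℝ) ^ ∑ i, m j i) := by gcongr
      _ = D ^ k * (p : ℝ) ^ w := by
          rw [← hw j, pow_add, pow_mul']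
          ring
  calc (Fintype.card J : ℝ) * ∑ j, EM p (fun c : (Σ i, ι i) → ZMod p =>
      ((p : ℝ) ^ (t j) * ∏ i, tr (f i) p (fun a => c ⟨i, a⟩) ^ (m j i)) ^ 2) ≤
      (Fintype.card J : ℝ) * ∑ _j : J, D ^ k * (p : ℝ) ^ w := by
        gcongr with j hj
        exact h2 j hj
    _ = _ := by
        rw [Finset.sum_const, Finset.card_univ, nsmul_eq_mul]
        ring

theorem RT_near (hC0 : 0 ≤ C0) (p : ℕ) [Fact p.Prime]
    (hZ : ∀ i, (bcone (n := 2) (f i) p : ℝ) ≤ C0 * p)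
    (hm : ∀ j i, m j i ≤ 2) (hw : ∀ j, ∑ i, m j i + 2 * t j = w) :
    |ET f m t p / PP w p - kap m / p| ≤
      (Fintype.card J * (k * (2 * (1 + C0) ^ 2) * (1 + 2 * (1 + C0) ^ 2) ^ k)) /
        (p : ℝ) ^ ((3 : ℝ) / 2) := by
  classical
  have hp0 : (0 : ℝ) < p := by exact_mod_cast (Fact.out : p.Prime).pos
  have hp1 : (1 : ℝ) ≤ p := by exact_mod_cast (Fact.out : p.Prime).one_lt.le
  set E : ℝ := 2 * (1 + C0) ^ 2 with hE
  have hE0 : 0 ≤ E := by positivity
  have hq : (0 : ℝ) < (p : ℝ) ^ ((1 : ℝ) / 2) := by positivity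
  have hq1 : (1 : ℝ) ≤ (p : ℝ) ^ ((1 : ℝ) / 2) := Real.one_le_rpow hp1 (by norm_num)
  have hterm : ∀ j : J, |(p : ℝ) ^ (t j) * (∏ i, em (f i) p (m j i)) / PP w p -
      (if ∀ i, m j i ≠ 1 then (1 : ℝ) else 0) / p| ≤
      (k * E * (1 + E) ^ k) / (p : ℝ) ^ ((3 : ℝ) / 2) := by
    intro j
    have hnorm : PP w p = (p : ℝ) ^ (t j) * (∏ i, (p : ℝ) ^ ((m j i : ℝ) / 2)) * p := by
      rw [← Real.rpow_sum_of_pos hp0, PP, ← Real.rpow_natCast, ← Real.rpow_add hp0,
        ← Real.rpow_add_one hp0.ne']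
      congr 1
      rw [← Finset.sum_div, ← hw j]
      push_cast
      ring
    have e1 : (p : ℝ) ^ (t j) * (∏ i, em (f i) p (m j i)) / PP w p =
        (∏ i, em (f i) p (m j i) / (p : ℝ) ^ ((m j i : ℝ) / 2)) / p := by
      rw [hnorm, Finset.prod_div_distrib]
      have h1 : (∏ i, (p : ℝ) ^ ((m j i : ℝ) / 2)) ≠ 0 :=
        Finset.prod_ne_zero_iff.mpr fun i _ => by positivity
      field_simp
    have e2 : (if ∀ i, m j i ≠ 1 then (1 : ℝ) else 0) =
        ∏ i, (if m j i ≠ 1 then (1 : ℝ) else 0) := by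
      rw [Finset.prod_boole]
      simp
    have h2 := (prod_bd (Finset.univ : Finset (Fin k))
      (fun i => em (f i) p (m j i) / (p : ℝ) ^ ((m j i : ℝ) / 2))
      (fun i => if m j i ≠ 1 then (1 : ℝ) else 0) (E / (p : ℝ) ^ ((1 : ℝ) / 2)) E hE0 (by positivity)
      (div_le_self hE0 hq1) (fun i => by
        split_ifs <;> simp)
      (fun i => em_near hC0 (hZ i) (m j i) (hm j i))).2
    rw [Finset.card_univ, Fintype.card_fin] at h2
    rw [e1, e2, ← sub_div, abs_div, abs_of_pos hp0, div_le_iff₀ hp0]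
    refine h2.trans (le_of_eq ?_)
    have e3 : (p : ℝ) ^ ((3 : ℝ) / 2) = (p : ℝ) ^ ((1 : ℝ) / 2) * p := by
      rw [← Real.rpow_add_one hp0.ne']
      norm_num
    rw [e3]
    field_simp
  have e4 : ET f m t p / PP w p - kap m / p = ∑ j : J,
      ((p : ℝ) ^ (t j) * (∏ i, em (f i) p (m j i)) / PP w p -
        (if ∀ i, m j i ≠ 1 then (1 : ℝ) else 0) / p) := by
    rw [Finset.sum_sub_distrib, ET, kap, Finset.sum_div, Finset.sum_div]
  rw [e4]
  refine (Finset.abs_sum_le_sum_abs _ _).trans ?_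
  refine (Finset.sum_le_sum fun j _ => hterm j).trans ?_
  rw [Finset.sum_const, Finset.card_univ, nsmul_eq_mul]
  apply le_of_eq
  ring

/-- The constant. -/
noncomputable def AT (J : Type) [Fintype J] (P : ∀ i, MvPolynomial (ι i) ℤ) (c0 : ∀ i, ι i → ℤ)
    (C0 : ℝ) (p0 : ℕ) : ℝ :=
  1 + p0 + (∑ i, ((P i).totalDegree + |(MvPolynomial.eval (c0 i) (P i) : ℝ)|)) +
    Fintype.card J * (Fintype.card J * (49 + 8 * (1 + C0) ^ 4) ^ k)

theorem famT (hC0 : 0 ≤ C0) (P : ∀ i, MvPolynomial (ι i) ℤ)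
    (c0 : ∀ i, ι i → ℤ) (hP : ∀ i, MvPolynomial.eval (c0 i) (P i) ≠ 0)
    (hf : ∀ i j, (f i j).IsHomogeneous (d i))
    (hs : ∀ i, ∀ p : ℕ, p.Prime → p0 ≤ p → Separates4 (n := 2) (f i) p)
    (hZ : ∀ i, ∀ p : ℕ, p.Prime → p0 ≤ p → (bcone (n := 2) (f i) p : ℝ) ≤ C0 * p)
    (hm : ∀ j i, m j i ≤ 2) (hw : ∀ j, ∑ i, m j i + 2 * t j = w) :
    Fam (AT J P c0 C0 p0) (NT f m t w p0) (BP P p0) := by
  classical
  have t1 : (0 : ℝ) ≤ p0 := by positivity
  have t2 : (0 : ℝ) ≤ ∑ i, ((P i).totalDegree + |(MvPolynomial.eval (c0 i) (P i) : ℝ)|) :=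
    Finset.sum_nonneg fun i _ => by positivity
  have t3 : (0 : ℝ) ≤ Fintype.card J * (Fintype.card J * (49 + 8 * (1 + C0) ^ 4) ^ k) := by positivity
  have hfam := famP (f := f) hC0 (Fin.elim0 : Fin 0 → Fin k) p0 P c0 hP hf hs hZ
  have hprs : (prs 0).card = 0 := rfl
  refine ⟨by unfold AT; linarith, ?_, ?_, hfam.nonneg, hfam.le_one, ?_⟩
  · intro p hpF
    have hp := hpF.out
    have hp0 : (0 : ℝ) < p := by exact_mod_cast hp.pos
    by_cases hlt : p < p0
    · have h1 : (fun c : (Σ i, ι i) → ZMod p => NT f m t w p0 p c ^ 2) = fun _ => 0 := by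
        funext c; simp [NT, hlt]
      rw [h1, EM_const]
      have : 0 ≤ AT J P c0 C0 p0 := by unfold AT; linarith
      positivity
    · have hs' := fun i => hs i p hp (by omega)
      have hZ' := fun i => hZ i p hp (by omega)
      have hPP := PP_pos (w := w) hp.pos
      have h1 : (fun c : (Σ i, ι i) → ZMod p => NT f m t w p0 p c ^ 2) =
          fun c => (1 / PP w p) ^ 2 * ((TT f m t p c ^ 2 + (-(2 * ET f m t p)) * TT f m t p c) +
            ET f m t p ^ 2) := by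
        funext c
        rw [NT, if_neg hlt]
        ring
      rw [h1, Pool.Agent.Y722.LS.EM_mul, EM_add, EM_add, EM_const, Pool.Agent.Y722.LS.EM_mul,
        EM_TT hf p hs' hm]
      have h2 := EM_TT_sq (t := t) hC0 hf p hs' hZ' hm hw
      have h3 : (1 / PP w p) ^ 2 = 1 / (p : ℝ) ^ (w + 2) := by
        rw [div_pow, one_pow, PP_sq hp.pos]
      rw [h3]
      calc 1 / (p : ℝ) ^ (w + 2) * (EM p (fun c : (Σ i, ι i) → ZMod p => TT f m t p c ^ 2) +
            -(2 * ET f m t p) * ET f m t p + ET f m t p ^ 2) ≤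
            1 / (p : ℝ) ^ (w + 2) * (Fintype.card J * (Fintype.card J *
              (49 + 8 * (1 + C0) ^ 4) ^ k) * (p : ℝ) ^ w) := by
              gcongr
              nlinarith [sq_nonneg (ET f m t p)]
        _ = (Fintype.card J * (Fintype.card J * (49 + 8 * (1 + C0) ^ 4) ^ k)) / (p : ℝ) ^ 2 := by
              rw [pow_add]
              field_simp
        _ ≤ _ := by
              gcongr
              unfold AT
              linarith
  · intro p hpF
    have hp := hpF.out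
    have hp0 : (0 : ℝ) < p := by exact_mod_cast hp.pos
    have hA : 0 ≤ AT J P c0 C0 p0 := by unfold AT; linarith
    by_cases hlt : p < p0
    · have h1 : (fun c : (Σ i, ι i) → ZMod p => NT f m t w p0 p c) = fun _ => 0 := by
        funext c; simp [NT, hlt]
      rw [h1, EM_const, abs_zero]
      positivity
    · have hs' := fun i => hs i p hp (by omega)
      have h1 : (fun c : (Σ i, ι i) → ZMod p => NT f m t w p0 p c) =
          fun c => (1 / PP w p) * (TT f m t p c - ET f m t p) := by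
        funext c
        rw [NT, if_neg hlt]
      rw [h1, Pool.Agent.Y722.LS.EM_mul, EM_sub', EM_TT hf p hs' hm, sub_self, mul_zero, abs_zero]
      positivity
  · intro p hpF
    have hp := hpF.out
    have hp0 : (0 : ℝ) < p := by exact_mod_cast hp.pos
    refine (hfam.bad p).trans ?_
    rw [hprs]
    gcongr
    unfold AT
    push_cast
    linarith

/-- `γ p j`, `j < b`, are the eigenvalues of the geometric Frobenius at `p` on the inertia invariants of the sum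
over `j` of the motives `⊗_i h¹(C_i) ^ {⊗ m j i} (- t j)` of weight `w`, zeros added if necessary. -/
structure IsFrobeniusT (f : ∀ i, ι i → MvPolynomial (Fin 3) ℤ) (m : J → Fin k → ℕ) (t : J → ℕ)
    (w b : ℕ) (c : (Σ i, ι i) → ℤ) (γ : ℕ → Fin b → ℂ) : Prop where
  bound : ∀ p : ℕ, p.Prime → ∀ j, ‖γ p j‖ ≤ (p : ℝ) ^ ((w : ℝ) / 2)
  count : ∀ (p : ℕ) [Fact p.Prime],
    (∀ i, IsSmooth (MvPolynomial.map (algebraMap (ZMod p) (AlgebraicClosure (ZMod p)))
      (lform (n := 2) (f i) (red p (fun j => c ⟨i, j⟩))))) →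
      ∑ j, γ p j = ((∑ j, (p : ℝ) ^ (t j) *
        ∏ i, tr (f i) p (red p (fun a => c ⟨i, a⟩)) ^ (m j i) : ℝ) : ℂ)

/-- **Tensor products of plane curves near the whole edge line, in mean square.** -/
theorem tensor_majorant (hd : ∀ i, 1 ≤ d i) (hf : ∀ i j, (f i j).IsHomogeneous (d i))
    (c0 : ∀ i, ι i → ℤ) (hsm : ∀ i, IsSmooth (lform (n := 2) (f i) (fun j => (c0 i j : ℂ))))
    (p0 : ℕ) (hs : ∀ i, ∀ p : ℕ, p.Prime → p0 ≤ p → Separates4 (n := 2) (f i) p)
    (hZ : ∀ i, ∀ p : ℕ, p.Prime → p0 ≤ p → (bcone (n := 2) (f i) p : ℝ) ≤ C0 * p)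
    (hm : ∀ j i, m j i ≤ 2) (hw : ∀ j, ∑ i, m j i + 2 * t j = w) (b : ℕ) :
    ∃ C : ℝ, 0 < C ∧ ∀ H : ℕ, 2 ≤ H → ∀ T : ℝ, 0 ≤ T → ∃ M : ((Σ i, ι i) → ℤ) → ℝ,
      (∀ c, 0 ≤ M c) ∧ EB H M ≤ C * (1 + T) ∧
      ∀ (c : (Σ i, ι i) → ℤ) (γ : ℕ → Fin b → ℂ) (ε τ : ℝ), IsFrobeniusT f m t w b c γ →
        1 / Real.log H ≤ ε → ε ≤ 1 → |τ| ≤ T →
        (Real.log ‖LP γ (w / 2 + 1 + ε + τ * Complex.I)‖ -
          kap m * Real.log ‖riemannZeta (1 + ε + τ * Complex.I)‖) ^ 2 ≤ M c := by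
  classical
  have hex := fun i => exists_disc (n := 2) (f i) (hd i) (hf i) (c0 i) (hsm i)
  choose P hP0 hP using hex
  have hZ' : ∀ i, ∀ p : ℕ, p.Prime → p0 ≤ p → (bcone (n := 2) (f i) p : ℝ) ≤ |C0| * p := by
    intro i p hp h
    refine (hZ i p hp h).trans ?_
    gcongr
    exact le_abs_self C0
  have hfam := famT (f := f) (t := t) (abs_nonneg C0) P c0 hP0 hf hs hZ' hm hw
  have hmain := line_majorant (κ := kap m)
    (K := Fintype.card J * (k * (2 * (1 + |C0|) ^ 2) * (1 + 2 * (1 + |C0|) ^ 2) ^ k))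
    (ρ := RT f m t w p0) hfam (by
    intro p hp c
    unfold BP
    split_ifs
    · exact Or.inr rfl
    · exact Or.inl rfl) (by positivity) (by
    intro p hp
    have := Fact.mk hp
    have hp0 : (0 : ℝ) < p := by exact_mod_cast hp.pos
    unfold RT
    split_ifs with h
    · rw [sub_self, abs_zero]
      positivity
    · exact RT_near (abs_nonneg C0) p (fun i => hZ' i p hp (by omega)) hm hw) (w + 1) b
  obtain ⟨C, hC, h⟩ := hmain
  refine ⟨C, hC, fun H hH T hT => ?_⟩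
  obtain ⟨M, hM0, hM1, hM2⟩ := h H hH T hT
  refine ⟨M, hM0, hM1, fun c γ ε τ hγ hε0 hε1 hτ => ?_⟩
  have h1 := hM2 c γ ε τ (by
    refine ⟨?_, ?_⟩
    · intro p hp j
      have e : (((w + 1 : ℕ) : ℝ) - 1) / 2 = (w : ℝ) / 2 := by push_cast; ring
      rw [e]
      exact hγ.bound p hp j
    · intro p hp hB
      have := Fact.mk hp
      have hp0 : (0 : ℝ) < p := by exact_mod_cast hp.pos
      have hgood : ¬ (p < p0 ∨ ∃ i, MvPolynomial.eval₂ (Int.castRingHom (ZMod p))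
          (fun j => red p c ⟨i, j⟩) (P i) = 0) := by
        intro h
        unfold BP at hB
        rw [if_pos h] at hB
        exact one_ne_zero hB
      push Not at hgood
      obtain ⟨hg1, hg2⟩ := hgood
      have hcount := hγ.count p (by
        intro i
        rw [map_lform]
        apply hP i
        have h2 : MvPolynomial.eval₂ (Int.castRingHom (AlgebraicClosure (ZMod p)))
            (fun j => algebraMap (ZMod p) (AlgebraicClosure (ZMod p))
              (red p (fun j => c ⟨i, j⟩) j)) (P i) =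
            algebraMap (ZMod p) (AlgebraicClosure (ZMod p))
              (MvPolynomial.eval₂ (Int.castRingHom (ZMod p)) (red p (fun j => c ⟨i, j⟩)) (P i)) := by
          rw [MvPolynomial.eval₂_comp_left, RingHom.ext_int
            ((algebraMap (ZMod p) (AlgebraicClosure (ZMod p))).comp (Int.castRingHom (ZMod p)))
            (Int.castRingHom (AlgebraicClosure (ZMod p)))]
          rfl
        rw [h2]
        intro h3
        exact hg2 i ((map_eq_zero _).mp h3))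
      rw [hcount]
      congr 1
      have hPP := PP_pos (w := w) hp.pos
      rw [NT, if_neg (by omega), RT, if_neg (by omega)]
      have e3 : (p : ℝ) ^ ((((w + 1 : ℕ) : ℝ) + 1) / 2) = PP w p := rfl
      rw [e3]
      have e4 : (∑ j, (p : ℝ) ^ (t j) * ∏ i, tr (f i) p (red p (fun a => c ⟨i, a⟩)) ^ (m j i)) =
          TT f m t p (red p c) := rfl
      rw [e4]
      field_simp
      ring) hε0 hε1 hτ
  have h2 : ss (w + 1) ε = (w : ℂ) / 2 + 1 + ε := by
    unfold ss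
    push_cast
    ring
  rw [h2] at h1
  exact h1

end many

end Pool.Agent.N534.TP
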