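import Pool.Agent.N534.TL.Main2
import Pool.Agent.Y722.PC.Assemble

/-!
# From moments modulo primes to the L-functions near the whole edge line, in mean square
-/

set_option autoImplicit false

namespace Pool.Agent.N534.TP

open Finset Pool.Agent.Y722.HS Pool.Agent.Y722.LS Pool.Agent.Y722.PC Pool.Agent.N534.TL

variable {ι : Type} [Fintype ι] [DecidableEq ι]
variable {n b : ℕ} {A K κ : ℝ} {N B : ∀ p : ℕ, (ι → ZMod p) → ℝ} {ρ : ℕ → ℝ}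

theorem rho_abs (hK : 0 ≤ K) (hρ : ∀ p : ℕ, p.Prime → |ρ p - κ / p| ≤ K / (p : ℝ) ^ ((3 : ℝ) / 2))
    (p : ℕ) (hp : p.Prime) : |ρ p| ≤ (|κ| + K) / p := by
  have hp0 : (0 : ℝ) < p := by exact_mod_cast hp.pos
  have hp1 : (1 : ℝ) ≤ p := by exact_mod_cast hp.one_lt.le
  have h1 : K / (p : ℝ) ^ ((3 : ℝ) / 2) ≤ K / p := by
    apply div_le_div_of_nonneg_left hK hp0
    calc (p : ℝ) = (p : ℝ) ^ (1 : ℝ) := (Real.rpow_one _).symm
      _ ≤ _ := Real.rpow_le_rpow_of_exponent_le hp1 (by norm_num)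
  have h2 : |κ / p| = |κ| / p := by rw [abs_div, abs_of_pos hp0]
  have h3 : ρ p = (ρ p - κ / p) + κ / p := by ring
  have h4 := abs_add_le (ρ p - κ / p) (κ / p)
  rw [← h3, h2] at h4
  have h5 := hρ p hp
  rw [add_div]
  linarith

theorem term_line (hB : ∀ p : ℕ, p.Prime → ∀ c, B p c = 0 ∨ B p c = 1) (hK : 0 ≤ K)
    (hρ : ∀ p : ℕ, p.Prime → |ρ p - κ / p| ≤ K / (p : ℝ) ^ ((3 : ℝ) / 2)) {c : ι → ℤ}
    {γ : ℕ → Fin b → ℂ} (h : Traces n b N B ρ c γ) (p : ℕ) (hp : p.Prime) (ε τ : ℝ) (hε : 0 ≤ ε) :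
    |((∑ j, twist γ τ p j) * (p : ℂ) ^ (-ss n ε)).re -
      ((p : ℝ) ^ (-ε) * ((p : ℂ) ^ (-((τ : ℂ) * Complex.I))).re * N p (red p c) +
        ρ p * ((p : ℝ) ^ (-ε) * ((p : ℂ) ^ (-((τ : ℂ) * Complex.I))).re))| ≤
      bb N B (b + (|κ| + K)) p (red p c) := by
  have hp0 : (0 : ℝ) < p := by exact_mod_cast hp.pos
  have hp1 : (1 : ℝ) ≤ p := by exact_mod_cast hp.one_lt.le
  have hpε : (p : ℝ) ^ (-ε) ≤ 1 := Real.rpow_le_one_of_one_le_of_nonpos hp1 (by linarith)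
  have hpε0 : 0 < (p : ℝ) ^ (-ε) := by positivity
  set r : ℂ := (p : ℂ) ^ (-((τ : ℂ) * Complex.I)) with hr
  have hr1 : ‖r‖ = 1 := norm_pi p hp τ
  have hre : |r.re| ≤ 1 := (Complex.abs_re_le_norm r).trans hr1.le
  have hsumtw : (∑ j, twist γ τ p j) = (∑ j, γ p j) * r := by
    rw [Finset.sum_mul]
    rfl
  have hcp : (p : ℂ) ^ (-ss n ε) =
      (((p : ℝ) ^ (-ε) / (p : ℝ) ^ (((n : ℝ) + 1) / 2) : ℝ) : ℂ) := by
    have h1 : (p : ℝ) ^ (-ε) / (p : ℝ) ^ (((n : ℝ) + 1) / 2) =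
        (p : ℝ) ^ (-(((n : ℝ) + 1) / 2 + ε)) := by
      rw [neg_add, Real.rpow_add hp0, Real.rpow_neg hp0.le (((n : ℝ) + 1) / 2)]
      ring
    rw [h1, Complex.ofReal_cpow hp0.le]
    congr 1
    unfold ss
    push_cast
    ring
  have hρ1 := rho_abs hK hρ p hp
  rcases hB p hp (red p c) with hb | hb
  · have h1 : bb N B (b + (|κ| + K)) p (red p c) = 0 := by
      unfold bb; rw [hb, zero_mul]
    rw [h1, hsumtw, h.trace p hp hb, hcp, mul_assoc, mul_comm r, ← mul_assoc, ← Complex.ofReal_mul,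
      Complex.re_ofReal_mul]
    apply le_of_eq
    rw [abs_eq_zero, sub_eq_zero]
    field_simp
  · have h1 : bb N B (b + (|κ| + K)) p (red p c) = |N p (red p c)| + (b + (|κ| + K)) / p := by
      unfold bb; rw [hb, one_mul]
    rw [h1, hsumtw]
    have h2 : |((∑ j, γ p j) * r * (p : ℂ) ^ (-ss n ε)).re| ≤ b / p := by
      refine (Complex.abs_re_le_norm _).trans ?_
      rw [norm_mul, norm_mul, hr1, mul_one, hcp, Complex.norm_real, Real.norm_of_nonneg (by positivity)]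
      have h3 : ‖∑ j, γ p j‖ ≤ b * (p : ℝ) ^ (((n : ℝ) - 1) / 2) := by
        refine (norm_sum_le _ _).trans ?_
        refine (Finset.sum_le_sum fun j _ => h.bound p hp j).trans ?_
        rw [Finset.sum_const, nsmul_eq_mul, Finset.card_univ, Fintype.card_fin]
      have h4 : (p : ℝ) ^ (((n : ℝ) + 1) / 2) = (p : ℝ) ^ (((n : ℝ) - 1) / 2) * p := by
        rw [← Real.rpow_add_one hp0.ne']
        congr 1
        ring
      calc _ ≤ b * (p : ℝ) ^ (((n : ℝ) - 1) / 2) * (1 / (p : ℝ) ^ (((n : ℝ) + 1) / 2)) := by gcongr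
        _ = _ := by rw [h4]; field_simp
    have h3 : |(p : ℝ) ^ (-ε) * r.re * N p (red p c)| ≤ |N p (red p c)| := by
      rw [abs_mul, abs_mul, abs_of_pos hpε0]
      calc _ ≤ 1 * 1 * |N p (red p c)| := by gcongr
        _ = _ := by ring
    have h4 : |ρ p * ((p : ℝ) ^ (-ε) * r.re)| ≤ (|κ| + K) / p := by
      rw [abs_mul, abs_mul, abs_of_pos hpε0]
      calc _ ≤ |ρ p| * (1 * 1) := by gcongr
        _ ≤ _ := by rw [mul_one, mul_one]; exact hρ1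
    have h5 := abs_sub (((∑ j, γ p j) * r * (p : ℂ) ^ (-ss n ε)).re)
      ((p : ℝ) ^ (-ε) * r.re * N p (red p c) + ρ p * ((p : ℝ) ^ (-ε) * r.re))
    have h6 := abs_add_le ((p : ℝ) ^ (-ε) * r.re * N p (red p c)) (ρ p * ((p : ℝ) ^ (-ε) * r.re))
    have h7 : ((b : ℝ) + (|κ| + K)) / p = b / p + (|κ| + K) / p := by ring
    rw [h7]
    linarith

theorem sum_line (hB : ∀ p : ℕ, p.Prime → ∀ c, B p c = 0 ∨ B p c = 1) (hK : 0 ≤ K)
    (hρ : ∀ p : ℕ, p.Prime → |ρ p - κ / p| ≤ K / (p : ℝ) ^ ((3 : ℝ) / 2)) {c : ι → ℤ}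
    {γ : ℕ → Fin b → ℂ} (h : Traces n b N B ρ c γ) (y : ℕ) (ε τ : ℝ) (hε : 0 ≤ ε) :
    |∑ p ∈ PR y, ((∑ j, twist γ τ p j) * (p : ℂ) ^ (-ss n ε)).re -
      ((ZC N y c (ε + τ * Complex.I)).re +
        ∑ p ∈ PR y, ρ p * ((p : ℝ) ^ (-ε) * ((p : ℂ) ^ (-((τ : ℂ) * Complex.I))).re))| ≤
      ∑ p ∈ PR y, bb N B (b + (|κ| + K)) p (red p c) := by
  have e1 : (ZC N y c (ε + τ * Complex.I)).re =
      ∑ p ∈ PR y, (p : ℝ) ^ (-ε) * ((p : ℂ) ^ (-((τ : ℂ) * Complex.I))).re * N p (red p c) := by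
    unfold ZC
    rw [Complex.re_sum]
    refine Finset.sum_congr rfl fun p hp => ?_
    have hpp := (mem_PR.mp hp).2
    have hp0 : (0 : ℝ) < p := by exact_mod_cast hpp.pos
    have hpc : (p : ℂ) ≠ 0 := by exact_mod_cast hpp.ne_zero
    have e2 : (p : ℂ) ^ (-((ε : ℂ) + τ * Complex.I)) =
        (((p : ℝ) ^ (-ε) : ℝ) : ℂ) * (p : ℂ) ^ (-((τ : ℂ) * Complex.I)) := by
      rw [Complex.ofReal_cpow hp0.le, neg_add, Complex.cpow_add _ _ hpc]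
      push_cast
      ring
    rw [e2, Complex.re_mul_ofReal, Complex.re_ofReal_mul]
  rw [e1, ← Finset.sum_add_distrib, ← Finset.sum_sub_distrib]
  refine (Finset.abs_sum_le_sum_abs _ _).trans (Finset.sum_le_sum fun p hp => ?_)
  exact term_line hB hK hρ h p (mem_PR.mp hp).2 ε τ hε

theorem main_line (hK : 0 ≤ K)
    (hρ : ∀ p : ℕ, p.Prime → |ρ p - κ / p| ≤ K / (p : ℝ) ^ ((3 : ℝ) / 2))
    (ε τ : ℝ) (h0 : 0 < ε) (h1 : ε ≤ 1) (y : ℕ) (hy : 1 ≤ y)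
    (h2 : 1 ≤ 4 * (ε * Real.log (y + 1))) :
    |∑ p ∈ PR y, ρ p * ((p : ℝ) ^ (-ε) * ((p : ℂ) ^ (-((τ : ℂ) * Complex.I))).re) -
      κ * Real.log ‖riemannZeta (1 + ε + τ * Complex.I)‖| ≤ K * SS + |κ| * (SS + 128) := by
  have h3 : |∑ p ∈ PR y, ρ p * ((p : ℝ) ^ (-ε) * ((p : ℂ) ^ (-((τ : ℂ) * Complex.I))).re) -
      κ * ∑ p ∈ PR y, (p : ℝ) ^ (-1 - ε) * ((p : ℂ) ^ (-((τ : ℂ) * Complex.I))).re| ≤ K * SS := by
    rw [Finset.mul_sum, ← Finset.sum_sub_distrib]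
    refine (Finset.abs_sum_le_sum_abs _ _).trans ?_
    have h10 : ∀ p ∈ PR y, |ρ p * ((p : ℝ) ^ (-ε) * ((p : ℂ) ^ (-((τ : ℂ) * Complex.I))).re) -
        κ * ((p : ℝ) ^ (-1 - ε) * ((p : ℂ) ^ (-((τ : ℂ) * Complex.I))).re)| ≤
          K * (1 / (p : ℝ) ^ ((3 : ℝ) / 2)) := by
      intro p hp
      have hpp := (mem_PR.mp hp).2
      have hp0 : (0 : ℝ) < p := by exact_mod_cast hpp.pos
      have hp1 : (1 : ℝ) ≤ p := by exact_mod_cast hpp.one_lt.le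
      have hpε : (p : ℝ) ^ (-ε) ≤ 1 := Real.rpow_le_one_of_one_le_of_nonpos hp1 (by linarith)
      have hpε0 : 0 < (p : ℝ) ^ (-ε) := by positivity
      have hre : |((p : ℂ) ^ (-((τ : ℂ) * Complex.I))).re| ≤ 1 :=
        (Complex.abs_re_le_norm _).trans (norm_pi p hpp τ).le
      set r := ((p : ℂ) ^ (-((τ : ℂ) * Complex.I))).re
      have e1 : ρ p * ((p : ℝ) ^ (-ε) * r) - κ * ((p : ℝ) ^ (-1 - ε) * r) =
          (ρ p - κ / p) * ((p : ℝ) ^ (-ε)) * r := by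
        rw [show (-1 - ε : ℝ) = -1 + -ε by ring, Real.rpow_add hp0, Real.rpow_neg_one]
        ring
      rw [e1, abs_mul, abs_mul, abs_of_pos hpε0]
      calc _ ≤ K / (p : ℝ) ^ ((3 : ℝ) / 2) * 1 * 1 := by
            gcongr
            exact hρ p hpp
        _ = _ := by ring
    refine (Finset.sum_le_sum h10).trans ?_
    rw [← Finset.mul_sum]
    exact mul_le_mul_of_nonneg_left (sum_le_SS _) hK
  have h4 := prime_line ε τ h0 h1 y hy h2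
  set S1 := ∑ p ∈ PR y, ρ p * ((p : ℝ) ^ (-ε) * ((p : ℂ) ^ (-((τ : ℂ) * Complex.I))).re)
  set S2 := ∑ p ∈ PR y, (p : ℝ) ^ (-1 - ε) * ((p : ℂ) ^ (-((τ : ℂ) * Complex.I))).re
  set l := Real.log ‖riemannZeta (1 + ε + τ * Complex.I)‖
  have e0 : S1 - κ * l = (S1 - κ * S2) + κ * (S2 - l) := by ring
  rw [e0]
  refine (abs_add_le _ _).trans (add_le_add h3 ?_)
  rw [abs_mul]
  gcongr

/-- The L-function of one member. -/
theorem one_line (hB : ∀ p : ℕ, p.Prime → ∀ c, B p c = 0 ∨ B p c = 1) (hK : 0 ≤ K)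
    (hρ : ∀ p : ℕ, p.Prime → |ρ p - κ / p| ≤ K / (p : ℝ) ^ ((3 : ℝ) / 2))
    (y : ℕ) (hy : 1 ≤ y) (c : ι → ℤ) (γ : ℕ → Fin b → ℂ) (h : Traces n b N B ρ c γ) (ε τ : ℝ)
    (hε : 0 < ε) (hε1 : ε ≤ 1) (hyε : 1 ≤ 4 * (ε * Real.log (y + 1))) :
    |Real.log ‖LP γ (ss n ε + τ * Complex.I)‖ -
      κ * Real.log ‖riemannZeta (1 + ε + τ * Complex.I)‖| ≤
      ‖ZC N y c (ε + τ * Complex.I)‖ +
        ∑ p ∈ PR y, bb N B (b + (|κ| + K)) p (red p c) +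
        (b * SS + 128 * b + (K * SS + |κ| * (SS + 128))) := by
  have hbound : ∀ p : ℕ, p.Prime → ∀ j, ‖twist γ τ p j‖ ≤ (p : ℝ) ^ (((n : ℝ) - 1) / 2) := by
    intro p hp j
    rw [twist_norm γ τ p hp]
    exact h.bound p hp j
  have h1 := log_LP (n := n) hε hε1 hbound y hy
  rw [LP_twist] at h1
  have h2 := sum_line hB hK hρ h y ε τ hε.le
  have h16 : 16 / (ε * Real.log (y + 1)) ≤ 64 := by
    rw [div_le_iff₀ (by linarith)]
    linarith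
  have h3 : 2 * (b : ℝ) * (16 / (ε * Real.log (y + 1))) ≤ 128 * b := by
    calc _ ≤ 2 * (b : ℝ) * 64 := by gcongr
      _ = _ := by ring
  have h4 := main_line hK hρ ε τ hε hε1 y hy hyε
  have h5 := Complex.abs_re_le_norm (ZC N y c (ε + τ * Complex.I))
  set L := Real.log ‖LP γ (ss n ε + τ * Complex.I)‖
  set S1 := ∑ p ∈ PR y, ((∑ j, twist γ τ p j) * (p : ℂ) ^ (-ss n ε)).re
  set Zz := (ZC N y c (ε + τ * Complex.I)).re
  set S2 := ∑ p ∈ PR y, ρ p * ((p : ℝ) ^ (-ε) * ((p : ℂ) ^ (-((τ : ℂ) * Complex.I))).re)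
  set S4 := ∑ p ∈ PR y, bb N B (b + (|κ| + K)) p (red p c)
  set l := Real.log ‖riemannZeta (1 + ε + τ * Complex.I)‖
  have e0 : L - κ * l = (L - S1) + (S1 - (Zz + S2)) + Zz + (S2 - κ * l) := by ring
  rw [e0]
  have i1 := abs_add_le ((L - S1) + (S1 - (Zz + S2)) + Zz) (S2 - κ * l)
  have i2 := abs_add_le ((L - S1) + (S1 - (Zz + S2))) Zz
  have i3 := abs_add_le (L - S1) (S1 - (Zz + S2))
  linarith

/-- **The majorant on the whole line.** -/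
theorem line_majorant (hF : Fam A N B) (hB : ∀ p : ℕ, p.Prime → ∀ c, B p c = 0 ∨ B p c = 1)
    (hK : 0 ≤ K) (hρ : ∀ p : ℕ, p.Prime → |ρ p - κ / p| ≤ K / (p : ℝ) ^ ((3 : ℝ) / 2)) (n b : ℕ) :
    ∃ C : ℝ, 0 < C ∧ ∀ H : ℕ, 2 ≤ H → ∀ T : ℝ, 0 ≤ T → ∃ M : (ι → ℤ) → ℝ,
      (∀ c, 0 ≤ M c) ∧ EB H M ≤ C * (1 + T) ∧
      ∀ (c : ι → ℤ) (γ : ℕ → Fin b → ℂ) (ε τ : ℝ), Traces n b N B ρ c γ → 1 / Real.log H ≤ ε →
        ε ≤ 1 → |τ| ≤ T → (Real.log ‖LP γ (ss n ε + τ * Complex.I)‖ -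
          κ * Real.log ‖riemannZeta (1 + ε + τ * Complex.I)‖) ^ 2 ≤ M c := by
  set β : ℝ := b + (|κ| + K) with hβ
  have hβ0 : 0 ≤ β := by positivity
  set K' : ℝ := b * SS + 128 * b + (K * SS + |κ| * (SS + 128)) with hK'
  have hSS := SS_nonneg
  have hK0 : 0 ≤ K' := by positivity
  have hA1 := hF.A0
  have hK1 : 0 ≤ K1 ι A := by
    unfold K1
    positivity
  have hK4 : 0 ≤ K4 ι A β :=
    le_trans (by unfold EB; positivity) (hF.EB_bb_sq hβ0 0 0 (by norm_num))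
  refine ⟨3 * (11 * (4 * Real.pi * K1 ι A)) + 3 * K4 ι A β + 3 * K' ^ 2 + 1, by positivity, ?_⟩
  intro H hH T hT
  obtain ⟨y, hy1, hy4, hyl⟩ := exists_y H hH
  have hlogH : 0 < Real.log H := Real.log_pos (by exact_mod_cast (by omega : 1 < H))
  set k : ℕ := ⌈4 * T + 1⌉₊ with hk
  have hk1 : 4 * T + 1 ≤ k := Nat.le_ceil _
  have hk2 : (k : ℝ) < 4 * T + 2 := by
    have := Nat.ceil_lt_add_one (a := 4 * T + 1) (by positivity)
    linarith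
  refine ⟨fun c => 3 * G2 N y k c +
    3 * (∑ p ∈ PR y, bb N B β p (red p c)) ^ 2 + 3 * K' ^ 2, ?_, ?_, ?_⟩
  · intro c
    have := G2_nonneg (N := N) y k c
    positivity
  · rw [EB_add, EB_add, EB_const, Pool.Agent.Y722.HS.EB_mul, Pool.Agent.Y722.HS.EB_mul]
    have e1 := EB_G2 hF H y k hy4
    have e2 := hF.EB_bb_sq hβ0 H y hy4
    have hpi := Real.pi_pos
    have e3 : (2 * (k : ℝ) + 1) * (4 * Real.pi * K1 ι A) ≤ (11 * (1 + T)) * (4 * Real.pi * K1 ι A) := by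
      apply mul_le_mul_of_nonneg_right _ (by positivity)
      linarith
    have e4 : 3 * K4 ι A β ≤ 3 * K4 ι A β * (1 + T) := le_mul_of_one_le_right (by positivity) (by linarith)
    have e5 : 3 * K' ^ 2 ≤ 3 * K' ^ 2 * (1 + T) := le_mul_of_one_le_right (by positivity) (by linarith)
    nlinarith
  · intro c γ ε τ hγ hε0 hε1 hτ
    have hεp : 0 < ε := lt_of_lt_of_le (by positivity) hε0
    have hyε : 1 ≤ 4 * (ε * Real.log (y + 1)) := by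
      have h4 : 1 ≤ ε * Real.log H := by
        rw [div_le_iff₀ hlogH] at hε0
        exact hε0
      calc (1 : ℝ) ≤ ε * Real.log H := h4
        _ ≤ ε * (4 * Real.log (y + 1)) := by gcongr
        _ = _ := by ring
    have h1 := one_line (κ := κ) hB hK hρ y hy1 c γ hγ ε τ hεp hε1 hyε
    rw [← hβ, ← hK'] at h1
    have h2 := ZC_le (N := N) y k c ε τ hεp.le hε1 (by linarith)
    set X := Real.log ‖LP γ (ss n ε + τ * Complex.I)‖ -
      κ * Real.log ‖riemannZeta (1 + ε + τ * Complex.I)‖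
    set z := ‖ZC N y c (ε + τ * Complex.I)‖
    set w := ∑ p ∈ PR y, bb N B β p (red p c)
    have hK0 : 0 ≤ z + w + K' := le_trans (abs_nonneg _) h1
    have h4 : X ^ 2 ≤ (z + w + K') ^ 2 := by
      rw [← sq_abs X]
      gcongr
    have h5 : (z + w + K') ^ 2 ≤ 3 * z ^ 2 + 3 * w ^ 2 + 3 * K' ^ 2 := by
      nlinarith [sq_nonneg (z - w), sq_nonneg (z - K'), sq_nonneg (w - K')]
    simp only
    linarith

end Pool.Agent.N534.TP
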